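import Mathlib
import Pool.Agent.H31.Spread

set_option autoImplicit false
open Matrix Finset Pool.Agent.H31.Spread

namespace Pool.Agent.Results.MP_df5386_co.Counter

theorem qf {n : ℕ} (A : Fin n → Fin n → Prop) [DecidableRel A] (x : Fin n → ℝ) :
    x ⬝ᵥ lap A *ᵥ x = ∑ i, ∑ j, if A i j then x i * (x i - x j) else 0 := by
  simp only [lap, sub_mulVec, dotProduct, Pi.sub_apply, mulVec_diagonal, outdeg, card_filter]
  refine sum_congr rfl fun i _ => ?_
  simp only [mulVec, dotProduct, of_apply, Nat.cast_sum, sum_mul, ← sum_sub_distrib, mul_sum]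
  refine sum_congr rfl fun j _ => ?_
  split_ifs <;> simp

theorem s3 (m : ℕ) (f : ℕ → ℝ) : ∑ i : Fin (3 * m), f (i % 3) = m * (f 0 + f 1 + f 2) := by
  rw [Fin.sum_univ_eq_sum_range (fun i => f (i % 3))]
  induction m with
  | zero => simp
  | succ m ih => simp [mul_add 3, sum_range_succ, ih, Nat.add_mod]; ring

theorem result (C : ℝ) : ∃ (n : ℕ) (A : Fin n → Fin n → Prop) (_ : DecidableRel A), 2 ≤ n ∧
    (∀ i, ¬ A i i) ∧ n + C + n / 50 < spread A := by
  obtain ⟨m, hm⟩ := exists_nat_gt (max 1 (100 * (C + 2)))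
  have m1 : (1 : ℝ) < m := lt_of_le_of_lt (le_max_left _ _) hm
  have m2 := lt_of_le_of_lt (le_max_right _ _) hm
  have m3 : 1 < m := by exact_mod_cast m1
  let A : Fin (3 * m + 1) → Fin (3 * m + 1) → Prop := fun i j =>
    j.val ≠ 0 ∧ (i.val = 0 ∨ (i.val - 1) % 3 = 0 ∧ (j.val - 1) % 3 = 1)
  refine ⟨3 * m + 1, A, inferInstance, by omega, fun i => by simp only [A]; omega, ?_⟩
  let g : ℕ → ℝ := fun k => if k = 0 then 1 else if k = 1 then 2 else -3
  have h1 := (hom A (Fin.cons 0 fun i => g (i % 3)) (by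
    rw [Fin.sum_univ_succ]; simp only [Fin.cons_succ, s3 m g]; norm_num [g])).1
  have h2 := (hom A (Fin.cons (3 * m) fun _ => -1) (by simp [Fin.sum_univ_succ])).2
  rw [qf] at h1 h2
  have e1 := s3 m fun k => g k * g k
  have e2 := fun k => s3 m fun l => if k = 0 ∧ l = 1 then g k * (g k - g l) else 0
  have e3 := s3 m fun k => m * ((if k = 0 ∧ 0 = 1 then g k * (g k - g 0) else 0) +
    (if k = 0 ∧ 1 = 1 then g k * (g k - g 1) else 0) + if k = 0 ∧ 2 = 1 then g k * (g k - g 2) else 0)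
  simp only [dotProduct, Fin.sum_univ_succ, Fin.cons_succ, Fin.cons_zero, A, Fin.val_succ,
    Fin.val_zero, ne_eq, not_true, false_and, if_false, Nat.add_one_ne_zero, not_false_iff,
    true_and, false_or, Nat.add_sub_cancel, e1, e2, zero_add, zero_mul, ite_self, sub_self,
    mul_zero, sum_const_zero, true_or, if_true, add_zero] at h1 h2 e3
  rw [e3] at h1
  norm_num [g] at h1 h2
  unfold spread
  push_cast
  have a : sInf (vals A) ≤ -m / 14 := by nlinarith
  have b : 3 * m ≤ sSup (vals A) := by nlinarith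
  linarith

end Pool.Agent.Results.MP_df5386_co.Counter
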